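import Pool.Agent.Helper21.DN.Stmts

set_option autoImplicit false
set_option linter.unusedSectionVars false
set_option linter.style.haveILetI false

/-! MP_b6a655_nt: the order of the norm is a normalised valuation. -/

namespace Pool.Agent.Helper21.DN

universe u

section
variable {k : Type u} [Field k] {L : Type u} [Field L] [Algebra (LaurentSeries k) L]
  [FiniteDimensional (LaurentSeries k) L]

theorem val_zero' : val k L 0 = ⊤ := by
  unfold val
  rw [Algebra.norm_zero, HahnSeries.orderTop_zero]

theorem val_one' : val k L 1 = 0 := by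
  unfold val
  rw [map_one, HahnSeries.orderTop_one]

theorem val_mul' (x y : L) : val k L (x * y) = val k L x + val k L y := by
  unfold val
  rw [map_mul, HahnSeries.orderTop_mul]

theorem val_norm_ne {x : L} (hx : x ≠ 0) : Algebra.norm (LaurentSeries k) x ≠ 0 :=
  Algebra.norm_ne_zero_iff.2 hx

variable (k) in
/-- the order as an integer -/
noncomputable def val_o (x : L) : ℤ := (Algebra.norm (LaurentSeries k) x).order

theorem val_eq {x : L} (hx : x ≠ 0) : val k L x = ((val_o k x : ℤ) : WithTop ℤ) := by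
  unfold val val_o
  rw [HahnSeries.order_eq_orderTop_of_ne_zero (val_norm_ne hx)]

theorem val_o_mul {x y : L} (hx : x ≠ 0) (hy : y ≠ 0) :
    val_o k (x * y) = val_o k x + val_o k y := by
  unfold val_o
  rw [map_mul, HahnSeries.order_mul (val_norm_ne hx) (val_norm_ne hy)]

theorem val_o_one : val_o k (1 : L) = 0 := by
  unfold val_o
  rw [map_one, HahnSeries.order_one]

theorem val_o_inv {x : L} (hx : x ≠ 0) : val_o k x⁻¹ = -val_o k x := by
  have h := val_o_mul (k := k) hx (inv_ne_zero hx)
  rw [mul_inv_cancel₀ hx, val_o_one] at h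
  omega

theorem val_o_pow {x : L} (hx : x ≠ 0) (n : ℕ) : val_o k (x ^ n) = n * val_o k x := by
  induction n with
  | zero => simp [val_o_one]
  | succ n ih =>
    rw [pow_succ, val_o_mul (pow_ne_zero n hx) hx, ih]
    push_cast
    ring

theorem val_o_zpow {x : L} (hx : x ≠ 0) (m : ℤ) : val_o k (x ^ m) = m * val_o k x := by
  obtain ⟨n, rfl | rfl⟩ := m.eq_nat_or_neg
  · rw [zpow_natCast, val_o_pow hx]
  · rw [zpow_neg, zpow_natCast, val_o_inv (pow_ne_zero n hx), val_o_pow hx]
    ring

theorem val_int {x : L} (hx : (strA k L).IsIntegralElem x) : 0 ≤ val k L x := by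
  letI : Algebra (PowerSeries k) L := (strA k L).toAlgebra
  haveI : IsScalarTower (PowerSeries k) (LaurentSeries k) L := IsScalarTower.of_algebraMap_eq' rfl
  have h1 : IsIntegral (PowerSeries k) x := hx
  have h2 : IsIntegral (PowerSeries k) (Algebra.norm (LaurentSeries k) x) :=
    Algebra.isIntegral_norm _ h1
  obtain ⟨y, hy⟩ := IsIntegrallyClosed.isIntegral_iff.1 h2
  unfold val
  rw [← hy]
  change 0 ≤ (HahnSeries.ofPowerSeries ℤ k y).orderTop
  rw [HahnSeries.le_orderTop_iff_forall]
  intro j hj
  have hj' : j < 0 := by exact_mod_cast hj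
  rw [HahnSeries.ofPowerSeries_apply]
  apply HahnSeries.embDomain_of_notMem_range
  rintro ⟨n, hn⟩
  have : (0 : ℤ) ≤ (n : ℤ) := Int.natCast_nonneg n
  change (n : ℤ) = j at hn
  omega

/-- the uniformizer of the base -/
noncomputable def val_t : LaurentSeries k := HahnSeries.single 1 1

theorem val_t_ne : (val_t : LaurentSeries k) ≠ 0 :=
  HahnSeries.single_ne_zero one_ne_zero

theorem val_o_t : val_o k (algebraMap (LaurentSeries k) L val_t) =
    Module.finrank (LaurentSeries k) L := by
  unfold val_o
  rw [Algebra.norm_algebraMap, HahnSeries.order_pow]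
  unfold val_t
  rw [HahnSeries.order_single one_ne_zero]
  simp

theorem val_const {c : k} (hc : c ≠ 0) :
    val k L (algebraMap (LaurentSeries k) L (HahnSeries.C c)) = 0 := by
  have h0 : (HahnSeries.C c : LaurentSeries k) ≠ 0 := by
    intro h
    exact hc (HahnSeries.C_injective (by rw [h, map_zero]))
  have h1 : algebraMap (LaurentSeries k) L (HahnSeries.C c) ≠ 0 := by
    intro h
    exact h0 ((algebraMap (LaurentSeries k) L).injective (by rw [h, map_zero]))
  rw [val_eq h1]
  unfold val_o
  rw [Algebra.norm_algebraMap, HahnSeries.order_pow, HahnSeries.order_C]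
  simp

end

theorem st_VAL (h1 : ST_VA.{u}) : ST_VAL.{u} := by
  intro k _ _ L _ _ _ _
  obtain ⟨B, hB, hBi, hBc, ϖ, hϖB, hϖ0, hϖi, hϖ⟩ := h1 k L
  have hpos : ∀ x ∈ B, 0 ≤ val k L x := fun x hx => val_int ((hB x).1 hx)
  have hopos : ∀ x ∈ B, x ≠ 0 → 0 ≤ val_o k x := fun x hx h0 => by
    have h := hpos x hx
    rw [val_eq h0] at h
    exact_mod_cast h
  have hunit : ∀ w ∈ B, w⁻¹ ∈ B → w ≠ 0 → val_o k w = 0 := by
    intro w hw hw' h0
    have e1 := hopos w hw h0
    have e2 := hopos _ hw' (inv_ne_zero h0)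
    rw [val_o_inv h0] at e2
    omega
  -- the value of a product
  have hval : ∀ (m : ℤ) (w : L), w ∈ B → w⁻¹ ∈ B → w ≠ 0 →
      val_o k (w * ϖ ^ m) = m * val_o k ϖ := by
    intro m w hw hw' h0
    rw [val_o_mul h0 (zpow_ne_zero m hϖ0), hunit w hw hw' h0, val_o_zpow hϖ0, zero_add]
  have ht0 : algebraMap (LaurentSeries k) L val_t ≠ 0 := by
    intro h
    exact val_t_ne ((algebraMap (LaurentSeries k) L).injective (by rw [h, map_zero]))
  obtain ⟨e, w, hwB, hwB', hw0, hte⟩ := hϖ _ ht0
  have hn : 0 < Module.finrank (LaurentSeries k) L := Module.finrank_pos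
  have hnef : (Module.finrank (LaurentSeries k) L : ℤ) = e * val_o k ϖ := by
    rw [← val_o_t, hte, hval e w hwB hwB' hw0]
  have hf : 0 < val_o k ϖ := by
    rcases (hopos ϖ hϖB hϖ0).lt_or_eq with h | h
    · exact h
    · rw [← h, mul_zero] at hnef
      omega
  have he : 0 < e := by
    by_contra hcon
    have : e * val_o k ϖ ≤ 0 := mul_nonpos_of_nonpos_of_nonneg (by omega) hf.le
    omega
  -- positive value iff in B
  have hiff : ∀ x : L, 0 ≤ val k L x → x ∈ B := by
    intro x hx
    by_cases h0 : x = 0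
    · rw [h0]
      exact B.zero_mem
    obtain ⟨m, w', hw1, hw2, hw3, hxe⟩ := hϖ x h0
    rw [val_eq h0] at hx
    have hx' : 0 ≤ val_o k x := by exact_mod_cast hx
    rw [hxe, hval m w' hw1 hw2 hw3] at hx'
    have hm : 0 ≤ m := by
      by_contra hcon
      have : m * val_o k ϖ < 0 := mul_neg_of_neg_of_pos (by omega) hf
      omega
    obtain ⟨n, rfl⟩ := Int.eq_ofNat_of_zero_le hm
    rw [hxe]
    rw [zpow_natCast]
    exact B.mul_mem hw1 (B.pow_mem hϖB n)
  have hstep : ∀ b ∈ B, ∃ c : k, ∃ b' ∈ B,
      b = algebraMap (LaurentSeries k) L (κ0 k c) + ϖ * b' := by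
    intro b hb
    obtain ⟨c, hc⟩ := hBc b hb
    refine ⟨c, ?_⟩
    by_cases h0 : b - algebraMap (LaurentSeries k) L (κ0 k c) = 0
    · exact ⟨0, B.zero_mem, by rw [mul_zero, add_zero]; exact sub_eq_zero.1 h0⟩
    have hc' := hc.resolve_left h0
    obtain ⟨m, w', hw1, hw2, hw3, hxe⟩ := hϖ _ h0
    have hcB : algebraMap (LaurentSeries k) L (κ0 k c) ∈ B := by
      apply hiff
      by_cases hc0 : c = 0
      · rw [hc0, map_zero, map_zero, val_zero']
        exact le_top
      · exact (val_const hc0).ge
    have hin := B.sub_mem hb hcB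
    have hm : 1 ≤ m := by
      by_contra hcon
      apply hc'
      rw [hxe, mul_inv, ← zpow_neg]
      obtain ⟨n, hn'⟩ := Int.eq_ofNat_of_zero_le (by omega : 0 ≤ -m)
      rw [hn', zpow_natCast]
      exact B.mul_mem hw2 (B.pow_mem hϖB n)
    obtain ⟨n, hn'⟩ := Int.eq_ofNat_of_zero_le (by omega : 0 ≤ m - 1)
    refine ⟨w' * ϖ ^ n, B.mul_mem hw1 (B.pow_mem hϖB n), ?_⟩
    have h5 : ϖ ^ m = ϖ * ϖ ^ n := by
      rw [← zpow_natCast ϖ n, ← hn', ← zpow_one_add₀ hϖ0]
      congr 1
      ring
    rw [h5] at hxe
    rw [sub_eq_iff_eq_add] at hxe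
    rw [hxe]
    ring
  have hadd : ∀ x y : L, min (val k L x) (val k L y) ≤ val k L (x + y) := by
    have key : ∀ x y : L, val k L x ≤ val k L y → val k L x ≤ val k L (x + y) := by
      intro x y hxy
      by_cases hx : x = 0
      · rw [hx, val_zero'] at hxy
        rw [hx, zero_add, val_zero']
        exact hxy
      by_cases hy : y = 0
      · rw [hy, add_zero]
      have h2 : 0 ≤ val k L (y * x⁻¹) := by
        rw [val_eq (mul_ne_zero hy (inv_ne_zero hx)), val_o_mul hy (inv_ne_zero hx), val_o_inv hx]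
        rw [val_eq hx, val_eq hy] at hxy
        have : val_o k x ≤ val_o k y := by exact_mod_cast hxy
        exact_mod_cast (by omega : 0 ≤ val_o k y + -val_o k x)
      have h3 := hpos _ (B.add_mem B.one_mem (hiff _ h2))
      have h4 : x + y = x * (1 + y * x⁻¹) := by
        field_simp
      rw [h4, val_mul']
      exact le_add_of_nonneg_right h3
    intro x y
    rcases le_total (val k L x) (val k L y) with h | h
    · rw [min_eq_left h]
      exact key x y h
    · rw [min_eq_right h, add_comm]
      exact key y x h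
  -- f = 1
  obtain ⟨n, rfl⟩ := Int.eq_ofNat_of_zero_le he.le
  have hdim : Module.finrank (LaurentSeries k) L ≤ n := by
    letI : Algebra (PowerSeries k) L := (strA k L).toAlgebra
    haveI : IsScalarTower (PowerSeries k) (LaurentSeries k) L :=
      IsScalarTower.of_algebraMap_eq' rfl
    haveI : Module.Finite (PowerSeries k) (integralClosure (PowerSeries k) L) :=
      IsIntegralClosure.finite (PowerSeries k) (LaurentSeries k) L
        (integralClosure (PowerSeries k) L)
    let N' : Submodule (PowerSeries k) L :=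
      Subalgebra.toSubmodule (integralClosure (PowerSeries k) L)
    have hN' : N'.FG := by
      rw [← Module.Finite.iff_fg]
      exact ‹Module.Finite (PowerSeries k) (integralClosure (PowerSeries k) L)›
    have hmem : ∀ x : L, x ∈ N' ↔ x ∈ B := by
      intro x
      rw [hB]
      rfl
    let N : Submodule (PowerSeries k) L :=
      Submodule.span (PowerSeries k) (Set.range (fun i : Fin n => ϖ ^ (i : ℕ)))
    have hexp : ∀ j : ℕ, j ≤ n → ∀ b ∈ B, ∃ x ∈ N, ∃ b' ∈ B, b = x + ϖ ^ j * b' := by
      intro j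
      induction j with
      | zero =>
        intro _ b hb
        exact ⟨0, N.zero_mem, b, hb, by simp⟩
      | succ j ih =>
        intro hj b hb
        obtain ⟨x, hx, b', hb', hbe⟩ := ih (by omega) b hb
        obtain ⟨c, b'', hb'', hbe'⟩ := hstep b' hb'
        refine ⟨x + (PowerSeries.C c : PowerSeries k) • ϖ ^ j, N.add_mem hx (N.smul_mem _
          (Submodule.subset_span ⟨⟨j, by omega⟩, rfl⟩)), b'', hb'', ?_⟩
        have h6 : (PowerSeries.C c : PowerSeries k) • ϖ ^ j =
            algebraMap (LaurentSeries k) L (κ0 k c) * ϖ ^ j := by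
          rw [Algebra.smul_def]
          congr 1
          change algebraMap (LaurentSeries k) L (HahnSeries.ofPowerSeries ℤ k (PowerSeries.C c)) = _
          rw [HahnSeries.ofPowerSeries_C]
        rw [h6, hbe, hbe']
        ring
    have hX : ∀ x : L, (PowerSeries.X : PowerSeries k) • x =
        algebraMap (LaurentSeries k) L val_t * x := by
      intro x
      rw [Algebra.smul_def]
      congr 1
      change algebraMap (LaurentSeries k) L (HahnSeries.ofPowerSeries ℤ k PowerSeries.X) = _
      rw [HahnSeries.ofPowerSeries_X]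
      rfl
    have hNN : N' ≤ N ⊔ (Ideal.span {(PowerSeries.X : PowerSeries k)}) • N' := by
      intro b hb
      obtain ⟨x, hx, b', hb', hbe⟩ := hexp n le_rfl b ((hmem b).1 hb)
      rw [hbe]
      apply Submodule.add_mem_sup hx
      have h7 : ϖ ^ n * b' = (PowerSeries.X : PowerSeries k) • (w⁻¹ * b') := by
        rw [hX, hte]
        rw [zpow_natCast]
        field_simp
      rw [h7]
      exact Submodule.smul_mem_smul (Ideal.mem_span_singleton_self _)
        ((hmem _).2 (B.mul_mem hwB' hb'))
    have hjac : Ideal.span {(PowerSeries.X : PowerSeries k)} ≤ Ideal.jacobson ⊥ := by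
      rw [IsLocalRing.jacobson_eq_maximalIdeal ⊥ bot_ne_top, Ideal.span_le,
        Set.singleton_subset_iff]
      change PowerSeries.X ∈ IsLocalRing.maximalIdeal (PowerSeries k)
      rw [IsLocalRing.mem_maximalIdeal, mem_nonunits_iff, PowerSeries.isUnit_iff_constantCoeff]
      simp
    have hle : N' ≤ N := Submodule.le_of_le_smul_of_le_jacobson_bot hN' hjac hNN
    have hspan : Submodule.span (LaurentSeries k) (Set.range (fun i : Fin n => ϖ ^ (i : ℕ))) = ⊤ := by
      rw [eq_top_iff]
      intro y _
      obtain ⟨a, ha0, ha⟩ := exists_integral_multiples (PowerSeries k) (LaurentSeries k) {y}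
      have h1 : IsIntegral (PowerSeries k) (a • y) := ha y (Finset.mem_singleton_self y)
      have h2 : a • y ∈ N := hle h1
      have h3 : a • y ∈ Submodule.span (LaurentSeries k)
          (Set.range (fun i : Fin n => ϖ ^ (i : ℕ))) :=
        Submodule.span_le_restrictScalars (PowerSeries k) (LaurentSeries k) _ h2
      have h4 : algebraMap (PowerSeries k) (LaurentSeries k) a ≠ 0 := by
        intro h
        exact ha0 (FaithfulSMul.algebraMap_injective (PowerSeries k) (LaurentSeries k)
          (by rw [h, map_zero]))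
      have h5 : y = (algebraMap (PowerSeries k) (LaurentSeries k) a)⁻¹ • (a • y) := by
        rw [← algebraMap_smul (LaurentSeries k) a y, smul_smul, inv_mul_cancel₀ h4, one_smul]
      rw [h5]
      exact Submodule.smul_mem _ _ h3
    have h8 := finrank_range_le_card (R := LaurentSeries k) (fun i : Fin n => ϖ ^ (i : ℕ))
    unfold Set.finrank at h8
    rw [hspan, finrank_top, Fintype.card_fin] at h8
    exact h8
  have hf1 : val_o k ϖ = 1 := by
    have h9 : (Module.finrank (LaurentSeries k) L : ℤ) ≤ n := by exact_mod_cast hdim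
    rw [hnef] at h9
    by_contra hcon
    have h10 : 2 ≤ val_o k ϖ := by omega
    have he' : (0 : ℤ) < n := he
    change (n : ℤ) * val_o k ϖ ≤ n at h9
    nlinarith
  refine ⟨AddValuation.of (val k L) val_zero' val_one' hadd val_mul', fun x => rfl, ⟨⟨ϖ, ?_⟩, ?_, ?_⟩⟩
  · change val k L ϖ = 1
    rw [val_eq hϖ0, hf1]
    rfl
  · intro c hc
    exact val_const hc
  · intro x hx
    obtain ⟨c, b', hb', hbe⟩ := hstep x (hiff x hx)
    refine ⟨c, ?_⟩
    change 1 ≤ val k L (x - algebraMap (LaurentSeries k) L (κ0 k c))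
    rw [hbe, add_sub_cancel_left, val_mul', val_eq hϖ0, hf1]
    exact le_add_of_nonneg_right (hpos b' hb')

end Pool.Agent.Helper21.DN
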